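import Mathlib
import Pool.Agent.N578.LB.Main
import Pool.Agent.V7H14.WP.Fin
import Pool.Agent.V7H14.EM.Prop

/-!
# Finite generation of étale motivic cohomology in the top weight for products with almost all abelian
# varieties over finite fields

For a proper regular connected arithmetic scheme `W` of dimension `n` the question is whether the groups
`H^i(W_et, ℤ(n))` are finitely generated for all `i ≤ 2 n`. Here `W` is a smooth projective variety over a
finite field. The theorem compares the products `A × Z` and `ℙ^g × Z`, where `A` is an abelian variety of
dimension `g` and `Z` an arbitrary smooth projective variety of dimension `d` (with a condition on the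
Frobenius eigenvalues): for almost all `A`

* the groups `H^i((A × Z)_et, ℤ(g + d))`, `i ≤ 2 (g + d)`, are finitely generated if and only if the groups
  `H^i((ℙ^g × Z)_et, ℤ(g + d))`, `i ≤ 2 (g + d)`, are;
* this is the case if and only if `H^i(Z, ℚ(d + k)) = 0` for all `0 ≤ k ≤ g` and `i < 2 (d + k)` (part of
  Parshin's conjecture for `Z`).

The precise property is `EtaleForRankOver E q r f`, for a number field `E`, a number `r` and a family `f` of Weil
`q`-polynomials: `A` is isogenous, over an extension of the field with `q` elements, to a product of powers of
abelian varieties with the characteristic polynomials `f i` of Frobenius, and the Frobenius endomorphism of `Z`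
satisfies a polynomial whose roots generate a group of rank at most `r` modulo the numbers with a power in `E`.

Let `g i` (`i` in a finite set `I`) be positive integers, `n = ∑ g i` and `G` the maximum of the `g i`. For a prime power
`q` a point `x` of `ℤ ^ n` gives the polynomials `h i = X ^ (g i) + ∑ x_(i,k) X ^ k` and `f i = X ^ (g i) h i (X + q / X)`;
all Weil `q`-polynomials of degree `2 g i` are of this form, and by Weil, Honda and Tate they correspond to the isogeny
classes of abelian varieties of dimension `g i` over the field with `q` elements (up to multiplicities). Almost all
means three things: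

1. (`InAllLattices`) in all boxes of all lattices the exceptions are rare, uniformly in `q`, and every point has a point
   with the property at bounded distance;
2. (`NearReal`) for all real points `ξ` outside a set of Hausdorff dimension at most
   `n - (1 / 6 - n η) / (G / 2 - η)`, for all primes `p` and large `m`, all the points `x` with
   `|x_(i,k) - q ^ ((g i - k) / 2) ξ_(i,k)| ≤ q ^ η`, `q = p ^ m`, have the property, for all number fields `E` and
   all `r < min (g i)` (and similarly for other sparse sequences of prime powers `q`);
3. for almost all `ξ` the same holds for all but at most `C T ^ β` prime powers `q ≤ T`, for all `β > 5 / 6 + n η`.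

Proof. The Künneth formula for the motivic cohomology of `A × Z` is from the starting files (`Y156/L`): all groups
`H^i(A × Z, ℚ(j))` are sums of groups `H^(i - 2 k)(Z, ℚ(j - k))`, and every `0 ≤ k ≤ g` occurs. By the finiteness of the
étale cohomology groups with torsion coefficients (`EtaleTop`) the question in weight `dim W` for a smooth
projective variety `W` over a finite field is equivalent to the vanishing of `H^i(W, ℚ(dim W))` for
`i < 2 dim W` (`allFG_iff`). The parts 1, 2 and 3 are `N578/LB`, `V7H14/WP` and `N220/ME`.
-/

set_option autoImplicit false

namespace Pool.Agent.Results.MP_b197b4_nt.AlmostAllFactorsH14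

open Polynomial Pool.Agent.W484.TB Pool.Agent.N578.LB Pool.Agent.V7H14.WP Pool.Agent.V7H14.EM

/-- For positive integers `g i` the property `EtaleForRankOver E q r f` (the finite generation of étale motivic
cohomology in the top weight is equivalent for `A × Z` and for `ℙ^(dim A) × Z`) holds for almost all families `f` of Weil
`q`-polynomials of degrees `2 g i`, in boxes of lattices and near real points. -/
theorem result {I : Type} [Fintype I] [DecidableEq I] [Nonempty I] (g : I → ℕ) (hg : ∀ i, 0 < g i) :
    (∀ E : IntermediateField ℚ ℂ, FiniteDimensional ℚ E → ∀ r : ℕ, (∀ i, r < g i) →
      InAllLattices g fun q f => EtaleForRankOver E q r f) ∧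
    NearReal g fun E r q f => EtaleForRankOver E q r f := by
  have h1 : ∀ E : IntermediateField ℚ ℂ, FiniteDimensional ℚ E → ∀ r : ℕ, (∀ i, r < g i) →
      InAllLattices g fun q f => EtaleForRankOver E q r f :=
    fun E hE r hr => inAllLattices (splitPrimes E) (dense_splitPrimes E) g
      (fun i => (Nat.zero_le r).trans_lt (hr i)) _
        fun _ hq x hx => etale_of_good g E hq.one_lt r hr x hx
  exact ⟨h1, nearReal g _ h1 (Finset.sum_pos (fun i _ => hg i) Finset.univ_nonempty)⟩

end Pool.Agent.Results.MP_b197b4_nt.AlmostAllFactorsH14
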