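import Mathlib
import Pool.Agent.V7H36.EtaleMot
import Pool.Agent.V7H9.GF.Gen

/-!
# Finite generation of étale motivic cohomology for varieties over finite fields generated by abelian
# varieties with good CM fields or regular blocks

We consider proper regular arithmetic schemes of positive characteristic: smooth projective varieties
`X` of dimension `d` over finite fields. The theorem says that `H^i(X_et, ℤ(n))` is finitely
generated for all `n` and all `i ≠ 2 n + 2`, in particular for `n = d` and `i ≤ 2 d`, and that the rational
motivic homology `H_i(X, ℚ(j))` is zero for `i ≠ 2 j`, if `X` belongs to the class `Generated`, the
smallest class of schemes of finite type over finite fields that contains the abelian varieties `Y`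
described below, that is closed under direct summands of finite sums of twists of motives, and that
contains all of a closed subscheme of `X`, `X` and the complement if it contains two of them.

The abelian varieties `Y` (`IsMixedAbelian`) are those which are isogenous, over an algebraic closure, to
products of powers of the factors of some `Z` as follows and of supersingular abelian varieties.

Over a finite field each abelian variety becomes isogenous, after a finite extension, to the
reduction of an abelian variety of CM type (`RedAV`; Honda, Tate), a product of factors with CM fields
`E i` (`CMPair`). Suppose (`HasMixedBlocks`) that for each factor `i` of `Z` and each complex embedding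
of `E i` one of the following conditions is satisfied.

* The factor is good (`IsGoodFactor`): it is independent of all others (for an embedding of its CM field
  `E` and one of the field of another factor there is an automorphism of the complex numbers which fixes
  one of the two and conjugates the other); and it has dimension `n ≤ 5`, `2 n = [E : ℚ]`, or its CM
  field is a good field (`IsGoodField`) and it is not of Weil type (`IsWeilType`). Good fields: `n` is
  one or a prime number; or any two embeddings of the maximal real subfield of `E` can be moved to any
  two others (in some order), and `n` is odd, or `n - 1` is a prime number, or the same is true for any
  three embeddings; or the real subfield has no proper subfields besides `ℚ` and the degree of the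
  Galois closure of `E` over that of the real subfield is larger than two. For instance, the Galois group
  of the real subfield may be the symmetric or the alternating group of degree `n ≥ 5`. Weil type:
  the product of the Frobenius eigenvalues for the embeddings which extend a complex embedding of an
  imaginary quadratic subfield of `E` is `q^(n/2)` times a root of unity (so a factor whose field contains no
  imaginary quadratic field is not of Weil type).
* The Frobenius eigenvalue is real, or it belongs to a regular block in the sense of
  `Pool.Agent.V7H95.Fin` (`IsInRegularBlock`, `IsOverQuadratic`, `HasPrimePowerDegree`): conditions modulo
  a prime number on its slopes.

So in one product good factors and factors with regular blocks of slopes can be mixed.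

`IsEtale` collects the theorems on motivic cohomology which are used: the purity theorem of Deligne, the
exact sequence of Geisser between étale, Weil-étale and rational motivic cohomology, and the theorem of
Geisser and Kahn that the groups `H^i_W(X, ℤ(n))` are finitely generated if the conjecture of Tate and
Beilinson holds for `X`.

Proof. A multiplicative relation between the Frobenius eigenvalues, `q` and roots of unity splits
according to the classes of linked embeddings (`rel_restrC`). By independence the classes which meet a good factor
are contained in it (`linked_factor`). The relations which involve only one factor are relations
on the abelian variety `one Z i` with this factor (`isRel_inc`); on a good factor of dimension larger than five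
which is not of Weil type they are generated by pairs of eigenvalues, since the only possible relations
on a good orbit are multiples of one sign function (`gen_orb`, from `Pool.Agent.V7H82.HT`). The other
classes are treated by the congruences of `Pool.Agent.V7H95.Fin`. So all relations are
elementary (`elementary_of_mixed`) and all Tate classes on all products are algebraic. The passage from
there to all degrees and to the class `Generated` (Soulé, Geisser, Kahn, Jannsen) was formalised in the
starting files, the step to étale cohomology in `Pool.Agent.V7H36.EM`.
-/

set_option autoImplicit false

namespace Pool.Agent.Results.MP_b197b4_nt.GoodFieldsH9

open Pool.Agent.W495.FM Pool.Agent.V7H36.EM Pool.Agent.V7H9.GF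

/-- **The étale motivic cohomology groups `H^i(X_et, ℤ(n))`, `i ≠ 2 n + 2`, are finitely generated, and
the rational motivic homology groups `H_i(X, ℚ(j))`, `i ≠ 2 j`, are zero, for all smooth projective
varieties `X` over finite fields generated by abelian varieties whose Frobenius eigenvalues come from
good factors or lie in regular blocks.** -/
theorem result (p : ℕ) [Fact p.Prime] (ν : PadicAlgCl p ≃+* ℂ) {Ω V : Type} [Field Ω]
    [IsAlgClosed Ω] [CharZero Ω] (T : Homology Ω V) (hT : IsHomology T) (S : V → ℤ → Prop)
    (W H : V → ℤ → ℤ → Type) [∀ X n i, AddCommGroup (W X n i)] [∀ X n i, AddCommGroup (H X n i)]
    (hE : IsEtale T S W H) (X : V) (d : ℤ) (hX : S X d)
    (hG : Generated T (IsMixedAbelian p ν T) X) :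
    (∀ n i : ℤ, i ≠ 2 * n + 2 → AddGroup.FG (H X n i)) ∧
      ∀ i j : ℤ, i ≠ 2 * j → Subsingleton (T.M X i j) :=
  ⟨fun n i hi => fg_of_tb hT hE hX (tb_mixed hT hG) n i hi,
    fun _ _ hij => motivic_subsingleton hT hE hX (tb_mixed hT hG) hij⟩

end Pool.Agent.Results.MP_b197b4_nt.GoodFieldsH9
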