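import Mathlib
import Pool.Agent.V7H36.EtaleMot
import Pool.Agent.V7H95.Fin.Gen

/-!
# Finite generation of étale motivic cohomology for varieties over finite fields generated by abelian
# varieties whose Frobenius eigenvalues lie in regular blocks

We consider proper regular arithmetic schemes of positive characteristic: smooth projective varieties
`X` of dimension `d` over finite fields. The theorem says that `H^i(X_et, ℤ(n))` is finitely
generated for all `n` and all `i ≠ 2 n + 2`, in particular for `n = d` and `i ≤ 2 d`, and that the rational
motivic homology `H_i(X, ℚ(j))` is zero for `i ≠ 2 j`, if `X` belongs to the class `Generated`, the
smallest class of schemes of finite type over finite fields that contains the abelian varieties `Y`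
described below, that is closed under direct summands of finite sums of twists of motives, and that
contains all of a closed subscheme of `X`, `X` and the complement if it contains two of them.

The abelian varieties `Y` (`IsBlockAbelian`) are those which are isogenous, over an algebraic closure, to
products of powers of the factors of some `Z` as follows and of supersingular abelian varieties.

Over a finite field each abelian variety becomes isogenous, after a finite extension, to the
reduction of an abelian variety of CM type (`RedAV`; Honda, Tate). Let `Z` be such a variety over the
field with `q` elements. The complex Frobenius eigenvalues `x` on its first cohomology have slopes `λ`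
(`slope`, normalised such that `q` has slope one), the complex conjugate of `x` is `q / x`; the weights
are the numbers `u = D (2 λ - 1)`, with a denominator `D > 0` such that they are integers (one may take
another `D` for each Galois orbit). Suppose (`HasPureBlocks`) that each eigenvalue `x` of `Z`

* generates a number field which has degree `ℓ ^ k`, `ℓ` a prime number, over an imaginary quadratic
  subfield `K`, and `ℓ` does not divide the sum of the weights over the conjugates of `x` over `K`
  (`IsOverQuadratic`);
* or it generates a field of degree `2 ℓ ^ k`, and the sum of the weights over each set that contains
  one of each two complex conjugate conjugates of `x` is not divisible by `ℓ`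
  (`HasPrimePowerDegree`);
* or it belongs to a regular block (`IsInRegularBlock`): a set `B` of eigenvalues without complex
  conjugate elements which is stable under a group `P` of automorphisms of the complex numbers that
  act on `B` with orders which are powers of a prime number `ℓ`, such that `B` is one orbit of `P` and
  for some automorphism `σ` the sum of the weights `u (σ y)`, `y ∈ B`, is not divisible by `ℓ`; or, more
  generally, such that all functions on `B` modulo `ℓ` which are invariant under `P` and orthogonal to
  all translates of the weights vanish (for instance `B = {x}`, if some conjugate of `x` has a weight
  which is not divisible by `ℓ`);
* or it is real (supersingular).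

In the first three cases `x` (the block) shall be flipped against the nonreal eigenvalues outside of
its Galois orbit (outside of `B` and its conjugate): an automorphism of the complex numbers fixes one of
the two and conjugates the other, or maps `x` to `y` and `y` to the conjugate of `x`. This is no
condition if `Z` is a power of a simple variety, in the first two cases. **Nothing is assumed on the
Galois groups of the number fields**, on the endomorphism algebras (which need not be
commutative) and on the dimensions.

`IsEtale` collects the theorems on motivic cohomology which are used: the purity theorem of Deligne, the
exact sequence of Geisser between étale, Weil-étale and rational motivic cohomology, and the theorem of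
Geisser and Kahn that the groups `H^i_W(X, ℤ(n))` are finitely generated if the conjecture of Tate and
Beilinson holds for `X`.

Proof. A multiplicative relation between the Frobenius eigenvalues, `q` and roots of unity is a
relation between the translates of the weights. It splits according to the blocks, since the
correlation of flipped eigenvalues is zero (`rel_block`). On a block, the relations modulo `ℓ` form a
vector space over the field with `ℓ` elements on which a group acts through an `ℓ`-group; if there is a
relation, then there is a nonzero invariant one, which contradicts the condition on the weights
(`block_mod`; if the degree is `ℓ ^ k` over an imaginary quadratic field one takes a Sylow subgroup,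
which is transitive). So all relations are generated by those between complex conjugate eigenvalues
(`elementary_of_blocks`), and all Tate classes on all products are algebraic. The passage from there to all degrees and to the class `Generated` (Soulé,
Geisser, Kahn, Jannsen) was formalised in the starting files, the step to étale cohomology in
`Pool.Agent.V7H36.EM`.
-/

set_option autoImplicit false

namespace Pool.Agent.Results.MP_b197b4_nt.PrimePowerBlocksH95

open Pool.Agent.W495.FM Pool.Agent.V7H36.EM Pool.Agent.V7H95.Fin

/-- **The étale motivic cohomology groups `H^i(X_et, ℤ(n))`, `i ≠ 2 n + 2`, are finitely generated, and
the rational motivic homology groups `H_i(X, ℚ(j))`, `i ≠ 2 j`, are zero, for all smooth projective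
varieties `X` over finite fields generated by abelian varieties whose Frobenius eigenvalues lie in
regular blocks.** -/
theorem result (p : ℕ) [Fact p.Prime] (ν : PadicAlgCl p ≃+* ℂ) {Ω V : Type} [Field Ω]
    [IsAlgClosed Ω] [CharZero Ω] (T : Homology Ω V) (hT : IsHomology T) (S : V → ℤ → Prop)
    (W H : V → ℤ → ℤ → Type) [∀ X n i, AddCommGroup (W X n i)] [∀ X n i, AddCommGroup (H X n i)]
    (hE : IsEtale T S W H) (X : V) (d : ℤ) (hX : S X d)
    (hG : Generated T (IsBlockAbelian p ν T) X) :
    (∀ n i : ℤ, i ≠ 2 * n + 2 → AddGroup.FG (H X n i)) ∧
      ∀ i j : ℤ, i ≠ 2 * j → Subsingleton (T.M X i j) :=
  ⟨fun n i hi => fg_of_tb hT hE hX (tb_block hT hG) n i hi,
    fun _ _ hij => motivic_subsingleton hT hE hX (tb_block hT hG) hij⟩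

end Pool.Agent.Results.MP_b197b4_nt.PrimePowerBlocksH95
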