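import Mathlib
import Pool.Agent.V7H36.EtaleMot

/-!
# Finite generation of étale motivic cohomology for varieties over finite fields generated by abelian
varieties of small dimension

We consider proper regular arithmetic schemes of positive characteristic: smooth projective varieties
`X` of dimension `d` over finite fields. The theorem says that `H^i(X_et, ℤ(n))` is finitely
generated for all `n` and all `i ≠ 2 n + 2`, in particular for `n = d` and `i ≤ 2 d`, if `X` belongs to
the class `Generated`, the smallest class of schemes of finite type over finite fields that contains the
abelian varieties `Y` described below, that is closed under direct summands of finite sums of twists of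
motives, and that contains all of a closed subscheme `Z` of `X`, `X` and `X ∖ Z` if it contains two of
them. It contains for instance the smooth projective varieties dominated by products of curves with
such Jacobians, and blow-ups and projective bundles of such varieties.

Over an algebraic closure of the field with `p` elements each abelian variety is isogenous to the
reduction of an abelian variety of CM type (Honda, Tate). So an abelian variety over the field with
`p ^ a` elements is modelled by `RedAV`: a finite product of CM types `(E i, Φ i)` with Weil numbers
`π i ∈ E i` that satisfy the formula of Shimura and Taniyama. The abelian varieties `Y` (`IsSmall`) are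

* those of dimension at most four;
* those which are isogenous, over an algebraic closure, to a product of a power of a simple abelian
  variety of dimension at most five and of a supersingular one;
* the products of abelian varieties of dimension at most three any two of which are isogenous if their
  CM fields have the same Galois closure over `ℚ`, unless these fields are Galois over `ℚ` or one of the
  two is supersingular.

`IsEtale` collects the theorems on motivic cohomology which are used: the purity theorem of Deligne, the
exact sequence of Geisser between étale, Weil-étale and rational motivic cohomology, and the theorem of
Geisser and Kahn that the groups `H^i_W(X, ℤ(n))` are finitely generated if the conjecture of Tate and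
Beilinson holds for `X`. This conjecture was proved for the class above in the starting files
(`Pool.Agent.W495`), where the properties of cycles are described (`IsChow`,
`IsMotivic`).
-/

set_option autoImplicit false

namespace Pool.Agent.Results.MP_b197b4_nt.SmallAbelianH36

open Pool.Agent.W495.FM Pool.Agent.V7H36.EM

/-- **The étale motivic cohomology groups `H^i(X_et, ℤ(n))`, `i ≠ 2 n + 2`, are finitely generated, and
the rational motivic homology groups `H_i(X, ℚ(j))`, `i ≠ 2 j`, are zero, for all smooth projective
varieties `X` over finite fields generated by abelian varieties of small dimension.** -/
theorem result (p : ℕ) [Fact p.Prime] (ν : PadicAlgCl p ≃+* ℂ) {Ω V : Type} [Field Ω]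
    [IsAlgClosed Ω] [CharZero Ω] (T : Homology Ω V) (hT : IsHomology T) (S : V → ℤ → Prop)
    (W H : V → ℤ → ℤ → Type) [∀ X n i, AddCommGroup (W X n i)] [∀ X n i, AddCommGroup (H X n i)]
    (hE : IsEtale T S W H) (X : V) (d : ℤ) (hX : S X d)
    (hG : Generated T (IsSmallAbelian p ν T) X) :
    (∀ n i : ℤ, i ≠ 2 * n + 2 → AddGroup.FG (H X n i)) ∧
      ∀ i j : ℤ, i ≠ 2 * j → Subsingleton (T.M X i j) :=
  main_small hT hE hX hG

end Pool.Agent.Results.MP_b197b4_nt.SmallAbelianH36
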